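import Mathlib
import Pool.Agent.Helper224_t4.Hom

/-!
# Homotopies of symplectic forms on the 4-torus taming structures invariant under a 2-torus

Let `η₀` and `η₁` be symplectic forms on the torus `ℝ^4 / ℤ^4` inducing the same orientation, in
the classes of the linear forms `A₀` and `A₁`. Suppose that for each of them there is a
two-dimensional subtorus `T`, on which `A_i` does not vanish, such that for every `x` and every
`v ≠ 0` there is `w` such that the form is positive on `(v, w)` at `x` and its integral over the
`T`-orbit of `x` is positive. This holds for instance if the form is invariant under `T` or tames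
an almost complex structure which is invariant under `T`. Then the two forms are homotopic
through nondegenerate two-forms.
-/

set_option autoImplicit false

namespace Pool.Agent.Results.MP_df7994_gt.TorusPositiveHomotopy

open Pool.Agent.Helper224_t4P

theorem result (A₀ A₁ : Bf) (η₀ η₁ : (Fin 4 → ℝ) → Bf) (h₀ : IsSymp A₀ η₀)
    (h₁ : IsSymp A₁ η₁) (t₀ : TorusPos A₀ η₀) (t₁ : TorusPos A₁ η₁)
    (orient : ∀ x : Fin 4 → ℝ, 0 < pf (η₀ x) * pf (η₁ x)) :
    ∃ Ω : ℝ → (Fin 4 → ℝ) → Bf, ContFamily Ω ∧ Ω 0 = η₀ ∧ Ω 1 = η₁ ∧
      ∀ t ∈ Set.Icc (0 : ℝ) 1, IsNondeg (Ω t) :=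
  Pool.Agent.Helper224_t4.main2' h₀ h₁ t₀ t₁ orient

end Pool.Agent.Results.MP_df7994_gt.TorusPositiveHomotopy
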